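import Pool.Agent.MP_92f1cb_al.H34G.Cob

set_option autoImplicit false

namespace Pool.Agent.MP_92f1cb_al.H34G

open Pool.Agent.MP_92f1cb_al.H14 Pool.Agent.MP_92f1cb_al.H14C Module CategoryTheory

variable {k G Bs B V : Type} [Field k] [Ring G] [Algebra k G] (β : Basis Bs k G)
  [Ring B] [Algebra k B] [AddCommGroup V] [Module k V]
  {Γ : Submodule k G} {φ ρ : ℕ → G →ₗ[k] End k V} {ι : B →ₗ[k] G} {pr : G →ₗ[k] B}

/-- `ι` embeds `B` as a left ideal of `Γ` on which `Γ` acts through `pr`. -/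
structure Cor (Γ : Submodule k G) (ι : B →ₗ[k] G) (pr : G →ₗ[k] B) : Prop where
  mem : ∀ c, ι c ∈ Γ
  pr_ι : ∀ c, pr (ι c) = c
  mul : ∀ a ∈ Γ, ∀ c, ι (pr a * c) = a * ι c

theorem Cor.pr_mul (hc : Cor Γ ι pr) (h : Der Γ φ ρ) {a c : G} (ha : a ∈ Γ) (hc' : c ∈ Γ) :
    pr (a * c) = pr a * pr c := by
  have h1 : ι (pr (a * c) * 1) = ι (pr a * (pr c * 1)) := by
    rw [hc.mul _ (h.mul a ha c hc'), hc.mul a ha, hc.mul c hc', mul_assoc]
  have h2 := congrArg pr h1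
  rwa [hc.pr_ι, hc.pr_ι, mul_one, mul_one] at h2

/-- The action on a `B`-module through `pr`. -/
noncomputable def actB (pr : G →ₗ[k] B) (Q : Type) [AddCommGroup Q] [Module B Q] [Module k Q]
    [IsScalarTower k B Q] : G →ₗ[k] End k Q :=
  (Algebra.lsmul k k Q).toLinearMap ∘ₗ pr

theorem actB_apply {Q : Type} [AddCommGroup Q] [Module B Q] [Module k Q] [IsScalarTower k B Q]
    (a : G) (q : Q) : actB pr Q a q = pr a • q := rfl

theorem liftB (h : Der Γ φ ρ) (hc : Cor Γ ι pr) {P : Type} [AddCommGroup P] [Module B P]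
    [Module k P] [IsScalarTower k B P] [Module.Projective B P] (i : ℕ) (τ : P →ₗ[k] V)
    (hτ : ∀ a ∈ Γ, ∀ y, τ (pr a • y) = φ (i + 1) a (τ y)) :
    ∃ Θ : P →ₗ[k] V, ∀ a ∈ Γ, ∀ y, Θ (pr a • y) = φ i a (Θ y) + ρ i a (τ y) := by
  obtain ⟨s, hs⟩ := Module.projective_def.1 (inferInstance : Module.Projective B P)
  let T : (P →₀ B) →ₗ[k] V := Finsupp.lsum k fun z => (ρ i ∘ₗ ι).flip (τ z)
  have hT : ∀ z c, T (Finsupp.single z c) = ρ i (ι c) (τ z) := fun z c => by simp [T]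
  have key : ∀ a ∈ Γ, ∀ w : P →₀ B,
      T (pr a • w) = φ i a (T w) + ρ i a (τ (Finsupp.linearCombination B id w)) :=
    fun a ha w => by
    induction w using Finsupp.induction_linear with
    | zero => simp
    | add u w hu hw => simp only [smul_add, map_add, hu, hw]; abel
    | single z c =>
      have h1 := hτ _ (hc.mem c) z
      rw [hc.pr_ι] at h1
      rw [Finsupp.smul_single, hT, hT, Finsupp.linearCombination_single, id, h1, smul_eq_mul,
        hc.mul a ha, h.hρ i a ha _ (hc.mem c)]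
      rfl
  refine ⟨T ∘ₗ s.restrictScalars k, fun a ha y => ?_⟩
  change T (s (pr a • y)) = φ i a (T (s y)) + ρ i a (τ y)
  rw [map_smul, key a ha, hs]

theorem good_succ (h : Der Γ φ ρ) (hc : Cor Γ ι pr) {K P Q : Type}
    [AddCommGroup K] [Module B K] [Module k K] [IsScalarTower k B K]
    [AddCommGroup P] [Module B P] [Module k P] [IsScalarTower k B P] [Module.Projective B P]
    [AddCommGroup Q] [Module B Q] [Module k Q] [IsScalarTower k B Q]
    (j : K →ₗ[B] P) (π : P →ₗ[B] Q) (hj : Function.Injective j) (hπ : Function.Surjective π)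
    (hex : ∀ p, π p = 0 ↔ ∃ q, j q = p) {i : ℕ} (hK : Good β Γ φ ρ (actB pr K) i) :
    Good β Γ φ ρ (actB pr Q) (i + 1) := by
  refine Or.inr ⟨i, rfl, fun τ hτ => ?_⟩
  obtain ⟨s, hs⟩ := (π.restrictScalars k).exists_rightInverse_of_surjective
    (LinearMap.range_eq_top.2 hπ)
  obtain ⟨r, hr⟩ := (j.restrictScalars k).exists_leftInverse_of_injective
    (LinearMap.ker_eq_bot.2 hj)
  have hs' : ∀ q, π (s q) = q := fun q => LinearMap.congr_fun hs q
  have hr' : ∀ q, r (j q) = q := fun q => LinearMap.congr_fun hr q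
  have hτ' : ∀ a ∈ Γ, ∀ q, τ (pr a • q) = φ (i + 1) a (τ q) := fun a ha q =>
    LinearMap.congr_fun (hτ a ha) q
  obtain ⟨Θ, hΘ⟩ := liftB h hc i (τ ∘ₗ π.restrictScalars k) fun a ha y => by
    change τ (π (pr a • y)) = φ (i + 1) a (τ (π y))
    rw [map_smul, hτ' a ha]
  let κ : G →ₗ[k] Q →ₗ[k] K :=
    ((actB pr P).compl₂ s - (actB pr Q).compr₂ s).compr₂ r
  have hκ : ∀ a q, j (κ a q) = pr a • s q - s (pr a • q) := fun a q => by
    obtain ⟨x, hx⟩ := (hex (pr a • s q - s (pr a • q))).1 (by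
      rw [map_sub, map_smul, hs', hs', sub_self])
    change j (r (pr a • s q - s (pr a • q))) = _
    rw [← hx, hr']
  refine step β h hK κ (fun a ha c hc' => LinearMap.ext fun q => hj ?_)
    (Θ ∘ₗ j.restrictScalars k) (fun a ha => LinearMap.ext fun q => ?_) τ (Θ ∘ₗ s)
    (fun a ha => LinearMap.ext fun q => ?_)
  · change j (κ (a * c) q) = j (pr a • κ c q + κ a (pr c • q))
    rw [map_add, map_smul, hκ, hκ, hκ, hc.pr_mul h ha hc', mul_smul, mul_smul, smul_sub]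
    abel
  · change Θ (j (pr a • q)) = φ i a (Θ (j q))
    rw [map_smul, hΘ a ha]
    change _ + ρ i a (τ (π (j q))) = _
    rw [(hex _).2 ⟨q, rfl⟩, map_zero, map_zero, add_zero]
  · change ρ i a (τ q) = Θ (j (κ a q)) - φ i a (Θ (s q)) + Θ (s (pr a • q))
    rw [hκ, map_sub, hΘ a ha]
    change _ = _ + ρ i a (τ (π (s q))) - _ - _ + _
    rw [hs']
    abel

theorem good_tail (h : Der Γ φ ρ) (hc : Cor Γ ι pr) (P : ℕ → Type) [∀ n, AddCommGroup (P n)]
    [∀ n, Module B (P n)] [∀ n, Module k (P n)] [∀ n, IsScalarTower k B (P n)]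
    [∀ n, Module.Projective B (P n)] (d : ∀ n, P (n + 1) →ₗ[B] P n)
    (ex : ∀ n x, d n x = 0 ↔ ∃ y, d (n + 1) y = x) (D : ℕ) (hD : Subsingleton (P (D + 1)))
    (t : ℕ) : ∀ j i, j + t = D → t ≤ i → Good β Γ φ ρ (actB pr (LinearMap.range (d j))) i := by
  induction t with
  | zero =>
    intro j i hj _
    obtain rfl : j = D := by omega
    refine Or.inl ⟨?_⟩
    rintro ⟨_, x, rfl⟩ ⟨_, y, rfl⟩
    rw [Subsingleton.elim x y]
  | succ t ih =>
    intro j i hj hi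
    obtain ⟨i, rfl⟩ : ∃ i', i = i' + 1 := ⟨i - 1, by omega⟩
    refine good_succ β h hc (LinearMap.range (d (j + 1))).subtype (d j).rangeRestrict
      Subtype.val_injective (d j).surjective_rangeRestrict (fun p => ?_)
      (ih (j + 1) i (by omega) (by omega))
    rw [Subtype.ext_iff]
    change d j p = 0 ↔ _
    rw [ex]
    exact ⟨fun ⟨y, hy⟩ => ⟨⟨p, y, hy⟩, rfl⟩, fun ⟨⟨_, y, hy⟩, hq⟩ => ⟨y, hy.trans hq⟩⟩

theorem good_of_gl (h : Der Γ φ ρ) (hc : Cor Γ ι pr) {D : ℕ} (hD : GlDimLE B D) (Q : Type)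
    [AddCommGroup Q] [Module B Q] [Module k Q] [IsScalarTower k B Q] {i : ℕ} (hi : D ≤ i) :
    Good β Γ φ ρ (actB pr Q) (i + 1) := by
  obtain ⟨R, hR⟩ := hD (ModuleCat.of B Q)
  letI : ∀ n, Module k (R.complex.X n) := fun n => Module.compHom _ (algebraMap k B)
  haveI : ∀ n, IsScalarTower k B (R.complex.X n) := fun n =>
    ⟨fun c b q => by rw [Algebra.smul_def, mul_smul]; rfl⟩
  let ε : R.complex.X 0 ⟶ ModuleCat.of B Q := R.π.f 0
  have hε : Epi ε := inferInstanceAs (Epi (R.π.f 0))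
  have h0 := good_tail β h hc (fun n => R.complex.X n) (fun n => (R.complex.d (n + 1) n).hom)
    (fun n x => ⟨(ShortComplex.moduleCat_exact_iff _).1 (R.exact_succ n) x, by
      rintro ⟨y, rfl⟩
      exact LinearMap.congr_fun (congrArg ModuleCat.Hom.hom (R.complex.d_comp_d _ _ _)) y⟩)
    D (ModuleCat.subsingleton_of_isZero (hR (D + 1) (Nat.lt_succ_self D))) D 0 i
    (Nat.zero_add D) hi
  refine good_succ β h hc (LinearMap.range (R.complex.d (0 + 1) 0).hom).subtype ε.hom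
    Subtype.val_injective ((ModuleCat.epi_iff_surjective ε).1 hε) (fun p => ⟨fun hp => ?_, ?_⟩) h0
  · obtain ⟨y, hy⟩ := (ShortComplex.moduleCat_exact_iff _).1 R.exact₀ p hp
    exact ⟨⟨p, y, hy⟩, rfl⟩
  · rintro ⟨⟨_, y, rfl⟩, rfl⟩
    exact LinearMap.congr_fun (congrArg ModuleCat.Hom.hom R.complex_d_comp_π_f_zero) y

/-- `Γ` is triangular for the idempotents `ε`, `y`, with corner `B` at `y` and scalars at `ε`. -/
structure Tri2 (Γ : Submodule k G) (ε y : G) (ι : B →ₗ[k] G) : Prop where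
  εmem : ε ∈ Γ
  ymem : y ∈ Γ
  εε : ε * ε = ε
  yy : y * y = y
  εy : ε * y = 0
  yε : y * ε = 0
  lunit : ∀ a ∈ Γ, (ε + y) * a = a
  runit : ∀ a ∈ Γ, a * (ε + y) = a
  up : ∀ a ∈ Γ, ε * a * y = 0
  diag : ∀ a ∈ Γ, ∃ c : k, ε * a * ε = c • ε
  ιmul : ∀ b c, ι (b * c) = ι b * ι c
  ιone : ι 1 = y
  ιinj : Function.Injective ι
  ιmem : ∀ b, ι b ∈ Γ
  ιsurj : ∀ a ∈ Γ, ∃ b, ι b = y * a * y

theorem Tri2.ay {ε y : G} (T : Tri2 Γ ε y ι) {a : G} (ha : a ∈ Γ) : y * a * y = a * y := by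
  conv_rhs => rw [← T.lunit a ha, add_mul, add_mul, T.up a ha, zero_add]

theorem Tri2.cor {ε y : G} (T : Tri2 Γ ε y ι) :
    ∃ pr : G →ₗ[k] B, Cor Γ ι pr ∧ ∀ a ∈ Γ, ι (pr a) = a * y := by
  obtain ⟨g, hg⟩ := ι.exists_leftInverse_of_injective (LinearMap.ker_eq_bot.2 T.ιinj)
  have hg' : ∀ b, g (ι b) = b := fun b => LinearMap.congr_fun hg b
  have h1 : ∀ a ∈ Γ, ι (g (a * y)) = a * y := fun a ha => by
    obtain ⟨b, hb⟩ := T.ιsurj a ha
    rw [← T.ay ha, ← hb, hg']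
  refine ⟨g ∘ₗ LinearMap.mulRight k y, ⟨T.ιmem, fun c => ?_, fun a ha c => ?_⟩, h1⟩
  · change g (ι c * y) = c
    rw [← T.ιone, ← T.ιmul, mul_one, hg']
  · change ι (g (a * y) * c) = _
    rw [T.ιmul, h1 a ha, mul_assoc, ← T.ιone, ← T.ιmul, one_mul]

theorem cob_top (h : Der Γ φ ρ) {ε y : G} (T : Tri2 Γ ε y ι) {D i : ℕ} (hD : GlDimLE B D)
    (hi : D ≤ i) :
    Cob β Γ (φ 0) (φ (i + 2)) (i + 1) fun u x => rp ρ 0 (u ++ [x]) ∘ₗ LinearMap.id := by
  obtain ⟨pr, hc, hpr⟩ := T.cor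
  let K : Submodule k V := LinearMap.ker (φ (i + 1) y - 1)
  have hK : ∀ v, v ∈ K ↔ φ (i + 1) y v = v := fun v => by
    rw [LinearMap.mem_ker, LinearMap.sub_apply, sub_eq_zero]; rfl
  have hy : ∀ b, y * ι b = ι b := fun b => by rw [← T.ιone, ← T.ιmul, one_mul]
  letI : Module B K :=
    { smul := fun b v => ⟨φ (i + 1) (ι b) v, (hK _).2 (by
        rw [← End.mul_apply, ← h.hφ _ _ T.ymem _ (T.ιmem b), hy])⟩
      one_smul := fun v => Subtype.ext (by
        change φ (i + 1) (ι 1) v = v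
        rw [T.ιone]; exact (hK _).1 v.2)
      mul_smul := fun b c v => Subtype.ext (by
        change φ (i + 1) (ι (b * c)) v = φ (i + 1) (ι b) (φ (i + 1) (ι c) v)
        rw [T.ιmul, h.hφ _ _ (T.ιmem b) _ (T.ιmem c)]; rfl)
      smul_zero := fun b => Subtype.ext (map_zero (φ (i + 1) (ι b)))
      smul_add := fun b v w => Subtype.ext (map_add (φ (i + 1) (ι b)) _ _)
      add_smul := fun b c v => Subtype.ext (by
        change φ (i + 1) (ι (b + c)) v = φ (i + 1) (ι b) v + φ (i + 1) (ι c) v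
        rw [map_add, map_add]; rfl)
      zero_smul := fun v => Subtype.ext (by
        change φ (i + 1) (ι 0) v = 0
        rw [map_zero, map_zero]; rfl) }
  haveI : IsScalarTower k B K := ⟨fun c b v => Subtype.ext (by
    change φ (i + 1) (ι (c • b)) v = c • φ (i + 1) (ι b) v
    rw [map_smul, map_smul]; rfl)⟩
  have hact : ∀ a ∈ Γ, ∀ v : K, ((actB pr K a v : K) : V) = φ (i + 1) a v := fun a ha v => by
    change φ (i + 1) (ι (pr a)) v = _
    rw [hpr a ha, h.hφ _ _ ha _ T.ymem, End.mul_apply, (hK _).1 v.2]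
  -- normalisation of the derivation on the idempotents
  have e1 := h.hρ (i + 1) _ T.εmem _ T.εmem
  have e2 := h.hρ (i + 1) _ T.ymem _ T.ymem
  have e3 := h.hρ (i + 1) _ T.εmem _ T.ymem
  have e4 := h.hρ (i + 1) _ T.ymem _ T.εmem
  have q1 := h.hφ (i + 2) _ T.εmem _ T.εmem
  have q2 := h.hφ (i + 2) _ T.ymem _ T.ymem
  have q3 := h.hφ (i + 2) _ T.εmem _ T.ymem
  have q4 := h.hφ (i + 2) _ T.ymem _ T.εmem
  rw [T.εε] at e1 q1
  rw [T.yy] at e2 q2
  rw [T.εy, map_zero] at e3 q3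
  rw [T.yε, map_zero] at e4 q4
  let θ : End k V := ρ (i + 1) ε * φ (i + 2) ε + ρ (i + 1) y * φ (i + 2) y -
    (ρ (i + 1) ε + ρ (i + 1) y) * (1 - φ (i + 2) ε - φ (i + 2) y)
  let ρ' : G →ₗ[k] End k V :=
    ρ (i + 1) + LinearMap.mulRight k θ ∘ₗ φ (i + 1) - LinearMap.mulLeft k θ ∘ₗ φ (i + 2)
  have hρ' : ∀ a, ρ' a = ρ (i + 1) a + φ (i + 1) a * θ - θ * φ (i + 2) a := fun a => rfl
  have hL : ∀ a ∈ Γ, ∀ c ∈ Γ, ρ' (a * c) = φ (i + 1) a * ρ' c + ρ' a * φ (i + 2) c :=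
    fun a ha c hc' => by
    rw [hρ', hρ', hρ', h.hρ _ a ha c hc', h.hφ _ a ha c hc', h.hφ _ a ha c hc']
    noncomm_ring
  have norm : ∀ p q q' r r' : End k V, r = p * r + r * q → 0 = p * r' + r * q' → q = q * q →
      q' = q' * q' → 0 = q * q' → 0 = q' * q →
      r + p * (r * q + r' * q' - (r + r') * (1 - q - q')) -
        (r * q + r' * q' - (r + r') * (1 - q - q')) * q = 0 := by
    intro p q q' r r' a1 a2 a3 a4 a5 a6
    have b1 : p * r = r - r * q := eq_sub_of_add_eq a1.symm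
    have b2 : p * r' = - (r * q') := eq_neg_of_add_eq_zero_left a2.symm
    simp only [mul_add, mul_sub, add_mul, sub_mul, mul_one, one_mul, ← mul_assoc, b1, b2,
      neg_mul]
    simp only [mul_assoc, ← a3, ← a4, ← a5, ← a6, mul_zero]
    abel
  have hε0 : ρ' ε = 0 := norm _ _ _ _ _ e1 e3 q1 q2 q3 q4
  have hy0 : ρ' y = 0 := by
    rw [← norm _ _ _ _ _ e2 e4 q2 q1 q4 q3, hρ']
    simp only [θ]
    noncomm_ring
  have hmem : ∀ a ∈ Γ, ∀ v, ρ' a v ∈ K := fun a ha v => by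
    obtain ⟨c, hc'⟩ := T.diag a ha
    have h1 : ε * a = c • ε := by
      rw [← T.runit _ (h.mul _ T.εmem a ha), mul_add, T.up a ha, add_zero, hc']
    have h2 : ρ' a = φ (i + 1) y * ρ' a := by
      conv_lhs => rw [← T.lunit a ha, add_mul, map_add, h1, map_smul, hε0, smul_zero, zero_add,
        hL _ T.ymem a ha, hy0, zero_mul, add_zero]
    exact (hK _).2 (LinearMap.congr_fun h2 v).symm
  obtain ⟨r, hr⟩ := K.subtype.exists_leftInverse_of_injective K.ker_subtype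
  have hκ : ∀ a ∈ Γ, ∀ v, ((r (ρ' a v) : K) : V) = ρ' a v := fun a ha v =>
    congrArg Subtype.val (LinearMap.congr_fun hr ⟨_, hmem a ha v⟩)
  refine step β h (good_of_gl β h hc hD K hi) (LinearMap.compr₂ ρ' r)
    (fun a ha c hc' => LinearMap.ext fun v => Subtype.ext ?_) K.subtype
    (fun a ha => LinearMap.ext fun v => hact a ha v) LinearMap.id θ
    (fun a ha => LinearMap.ext fun v => ?_)
  · change ((r (ρ' (a * c) v) : K) : V) =
      (actB pr K a (r (ρ' c v)) : K) + (r (ρ' a (φ (i + 2) c v)) : K)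
    rw [hκ _ (h.mul a ha c hc'), hact a ha, hκ c hc', hκ a ha, hL a ha c hc']
    rfl
  · change ρ (i + 1) a v = (r (ρ' a v) : K) - φ (i + 1) a (θ v) + θ (φ (i + 2) a v)
    rw [hκ a ha, hρ']
    simp only [LinearMap.sub_apply, LinearMap.add_apply, End.mul_apply]
    abel

/-- If `B` has finite global dimension, the trace cocycle of large length vanishes on
Hochschild cycles with head in `N` and other letters in `Γ`. -/
theorem chi_zero (h : Der Γ φ ρ) {ε y : G} (T : Tri2 Γ ε y ι) {D₀ D : ℕ} (hD : GlDimLE B D₀)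
    (hle : D₀ + 2 ≤ D) (N : Submodule k G) (ν : G →ₗ[k] End k V)
    (hr : ∀ n ∈ N, ∀ a ∈ Γ, ν (n * a) = ν n * φ 0 a)
    (hl : ∀ n ∈ N, ∀ a ∈ Γ, ν (a * n) = φ D a * ν n) (χ : WW k Bs →ₗ[k] k)
    (hχ : ∀ n ∈ N, ∀ l : List G, (∀ a ∈ l, a ∈ Γ) → χ (ww β (n :: l)) =
      if l.length = D then LinearMap.trace k V (ν n * rp ρ 0 l) else 0)
    {z : WW k Bs} (hz : z ∈ Submodule.span k
      {W | ∃ n ∈ N, ∃ l : List G, (∀ a ∈ l, a ∈ Γ) ∧ W = ww β (n :: l)})
    (hb : bH β z = 0) : χ z = 0 := by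
  obtain ⟨i, rfl⟩ : ∃ i, D = i + 2 := ⟨D - 2, by omega⟩
  obtain ⟨ψ, hψ⟩ := cob_top β h T hD (show D₀ ≤ i by omega)
  let F : G →ₗ[k] WW k Bs →ₗ[k] k :=
    ((LinearMap.mul k (End k V) ∘ₗ ν).compl₂ ψ).compr₂ (LinearMap.trace k V)
  have hF : ∀ a W, HX β F (cons β a W) = LinearMap.trace k V (ν a * (ψ W : End k V)) :=
    fun a W => by rw [HX_cons]; rfl
  have key : χ z = (HX β F ∘ₗ bH β ∘ₗ piL k Bs (i + 2 + 1)) z := by
    refine LinearMap.eqOn_span (s := _) ?_ hz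
    rintro _ ⟨n, hn, l, hΓ, rfl⟩
    rw [hχ n hn l hΓ, LinearMap.comp_apply, LinearMap.comp_apply, piL_ww, List.length_cons]
    by_cases hlen : l.length = i + 2
    · rw [if_pos hlen, if_pos (by omega)]
      cases l with
      | nil => simp at hlen
      | cons a w =>
        obtain ⟨u, x, hu⟩ : ∃ u x, a :: w = u ++ [x] :=
          ⟨_, _, (List.dropLast_append_getLast (List.cons_ne_nil a w)).symm⟩
        have h1 := hψ a x w u hu hΓ (by simpa using hlen)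
        have h2 : d0 β (TH k Bs (ww β (n :: a :: w))) = - cons β (x * n) (om (ww β u)) := by
          rw [ww_cons, hu, ww_concat, d0_TH_cons_snoc]
        simp only [← hu, LinearMap.comp_id] at h1
        rw [bH_apply, h2, ww_cons β n, bp_cons, ww_cons β a, d0_cons_cons, ← ww_cons β a, map_add,
          map_sub, map_neg, hF, hF, hF, hr n hn a (hΓ a (by simp)),
          hl n hn x (hΓ x (by rw [hu]; simp)), mul_assoc (φ (i + 2) x),
          LinearMap.trace_mul_comm k (φ (i + 2) x), h1, ← map_sub, ← sub_eq_add_neg, ← map_sub]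
        congr 1
        ext v
        simp only [End.mul_apply, LinearMap.sub_apply, LinearMap.comp_apply, map_sub]
    · rw [if_neg hlen, if_neg (by omega), map_zero, map_zero]
  rw [key, LinearMap.comp_apply, LinearMap.comp_apply, ← piL_bH, hb, map_zero, map_zero]

end Pool.Agent.MP_92f1cb_al.H34G
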