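import Pool.Agent.MP_92f1cb_al.H14C.Base

set_option autoImplicit false

namespace Pool.Agent.MP_92f1cb_al.H34G

open Pool.Agent.MP_92f1cb_al.H14 Pool.Agent.MP_92f1cb_al.H14C Module

variable {k G Bs : Type} [Field k] [Ring G] [Algebra k G] (β : Basis Bs k G)

section HX

variable {X : Type} [AddCommGroup X] [Module k X]

/-- Head functional on basis words. -/
noncomputable def hxf (F : G →ₗ[k] WW k Bs →ₗ[k] X) : List Bs → X
  | x :: w => F (β x) (ee (0, w))
  | [] => 0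

/-- The linear map sending `a W` to `F a W`. -/
noncomputable def HX (F : G →ₗ[k] WW k Bs →ₗ[k] X) : WW k Bs →ₗ[k] X :=
  Finsupp.linearCombination k fun p => hxf β F p.2

theorem HX_ee (F : G →ₗ[k] WW k Bs →ₗ[k] X) (p : ZMod 1 × List Bs) :
    HX β F (ee p) = hxf β F p.2 := by simp [HX, ee]

theorem HX_cons (F : G →ₗ[k] WW k Bs →ₗ[k] X) (a : G) (W : WW k Bs) :
    HX β F (cons β a W) = F a W := by
  induction a using basis_ind' β with
  | hb x =>
    induction W using ee_ind with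
    | hb c w => rw [← ee_cons, Subsingleton.elim c 0, HX_ee]; rfl
    | h0 => simp
    | hadd x y hx hy => simp only [map_add, hx, hy]
    | hsmul c x hx => simp only [map_smul, hx]
  | h0 => simp
  | hadd x y hx hy => simp only [map_add, LinearMap.add_apply, hx, hy]
  | hsmul c x hx => simp only [map_smul, LinearMap.smul_apply, hx]

/-- The linear map sending `W a` to `F a W`. -/
noncomputable def TX (F : G →ₗ[k] WW k Bs →ₗ[k] X) : WW k Bs →ₗ[k] X :=
  HX β (F.compl₂ om) ∘ₗ TH k Bs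

theorem TX_snoc (F : G →ₗ[k] WW k Bs →ₗ[k] X) (a : G) (W : WW k Bs) :
    TX β F (snoc β a W) = F a W := by
  rw [TX, LinearMap.comp_apply, TH_snoc, HX_cons, LinearMap.compl₂_apply, om_om]

end HX

variable {V : Type} [AddCommGroup V] [Module k V]

/-- The product `ρ n a₁ * ρ (n+1) a₂ * ⋯`. -/
def rp (ρ : ℕ → G →ₗ[k] End k V) : ℕ → List G → End k V
  | _, [] => 1
  | n, a :: l => ρ n a * rp ρ (n + 1) l

theorem rp_concat (ρ : ℕ → G →ₗ[k] End k V) (u : List G) (x : G) (n : ℕ) :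
    rp ρ n (u ++ [x]) = rp ρ n u * ρ (n + u.length) x := by
  induction u generalizing n with
  | nil => simp [rp]
  | cons a u ih =>
    rw [List.cons_append, rp, rp, ih, mul_assoc, List.length_cons,
      show n + 1 + u.length = n + (u.length + 1) by omega]

/-- The linear extension of `rp` to words. -/
noncomputable def RW (ρ : ℕ → G →ₗ[k] End k V) (n : ℕ) : WW k Bs →ₗ[k] End k V :=
  Finsupp.linearCombination k fun p => rp ρ n (p.2.map β)

theorem RW_ee (ρ : ℕ → G →ₗ[k] End k V) (n : ℕ) (p : ZMod 1 × List Bs) :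
    RW β ρ n (ee p) = rp ρ n (p.2.map β) := by simp [RW, ee]

theorem RW_cons (ρ : ℕ → G →ₗ[k] End k V) (n : ℕ) (a : G) (W : WW k Bs) :
    RW β ρ n (cons β a W) = ρ n a * RW β ρ (n + 1) W := by
  induction a using basis_ind' β with
  | hb x =>
    induction W using ee_ind with
    | hb c w => rw [← ee_cons, RW_ee, RW_ee]; rfl
    | h0 => simp
    | hadd x y hx hy => simp only [map_add, hx, hy, mul_add]
    | hsmul c x hx => simp only [map_smul, hx, mul_smul_comm]
  | h0 => simp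
  | hadd x y hx hy => simp only [map_add, LinearMap.add_apply, hx, hy, add_mul]
  | hsmul c x hx => simp only [map_smul, LinearMap.smul_apply, hx, smul_mul_assoc]

theorem RW_ww (ρ : ℕ → G →ₗ[k] End k V) (l : List G) (n : ℕ) :
    RW β ρ n (ww β l) = rp ρ n l := by
  induction l generalizing n with
  | nil => rw [ww_nil, RW_ee]; rfl
  | cons a l ih => rw [ww_cons, RW_cons, ih]; rfl

/-- Multiplicativity and the Leibniz rule on a multiplicatively closed subspace. -/
structure Der (Γ : Submodule k G) (φ ρ : ℕ → G →ₗ[k] End k V) : Prop where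
  mul : ∀ a ∈ Γ, ∀ c ∈ Γ, a * c ∈ Γ
  hφ : ∀ n, ∀ a ∈ Γ, ∀ c ∈ Γ, φ n (a * c) = φ n a * φ n c
  hρ : ∀ n, ∀ a ∈ Γ, ∀ c ∈ Γ, ρ n (a * c) = φ n a * ρ n c + ρ n a * φ (n + 1) c

variable {Γ : Submodule k G} {φ ρ : ℕ → G →ₗ[k] End k V}

theorem tele (h : Der Γ φ ρ) (w : List G) : ∀ (n : ℕ) (a x : G) (u : List G),
    a :: w = u ++ [x] → (∀ z ∈ a :: w, z ∈ Γ) →
    φ n a * rp ρ n w - RW β ρ n (bp β (ww β (a :: w))) =
      (-1 : k) ^ w.length • (rp ρ n u * φ (n + w.length) x) := by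
  induction w with
  | nil =>
    intro n a x u hu _
    cases u with
    | nil =>
      obtain rfl : a = x := by simpa using hu
      rw [ww_cons, bp_one]; simp [rp]
    | cons b u => simp at hu
  | cons b w ih =>
    intro n a x u hu hΓ
    cases u with
    | nil => simp at hu
    | cons a' u =>
      rw [List.cons_append, List.cons.injEq] at hu
      obtain ⟨rfl, hu⟩ := hu
      have h1 := ih (n + 1) b x u hu fun z hz => hΓ z (List.mem_cons_of_mem _ hz)
      have h2 := h.hρ n a (hΓ a (by simp)) b (hΓ b (by simp))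
      rw [ww_cons, bp_cons, map_sub, RW_cons, ww_cons, d0_cons_cons, RW_cons, RW_ww, h2,
        ← ww_cons, rp, rp, List.length_cons, pow_succ,
        show n + (w.length + 1) = n + 1 + w.length by omega, mul_assoc (ρ n a), mul_neg_one,
        neg_smul, ← mul_smul_comm, ← h1]
      noncomm_ring

variable {M K : Type} [AddCommGroup M] [Module k M] [AddCommGroup K] [Module k K]

/-- The cochain `c` on words of length `i + 1` is a coboundary. -/
def Cob (Γ : Submodule k G) (φ₀ : G →ₗ[k] End k V) (act : G →ₗ[k] End k M) (i : ℕ)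
    (c : List G → G → M →ₗ[k] V) : Prop :=
  ∃ ψ : WW k Bs →ₗ[k] M →ₗ[k] V, ∀ (a x : G) (w u : List G), a :: w = u ++ [x] →
    (∀ z ∈ a :: w, z ∈ Γ) → w.length = i →
    c u x = φ₀ a ∘ₗ ψ (ww β w) - ψ (bp β (ww β (a :: w))) - ψ (om (ww β u)) ∘ₗ act x

/-- The products of length `i` vanish in cohomology on the module given by `act`. -/
def Good (Γ : Submodule k G) (φ ρ : ℕ → G →ₗ[k] End k V) (act : G →ₗ[k] End k M) (i : ℕ) :
    Prop :=
  Subsingleton M ∨ ∃ j, i = j + 1 ∧ ∀ τ : M →ₗ[k] V, (∀ a ∈ Γ, τ ∘ₗ act a = φ i a ∘ₗ τ) →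
    Cob β Γ (φ 0) act j fun u x => rp ρ 0 (u ++ [x]) ∘ₗ τ

theorem shift {act : G →ₗ[k] End k M} {act' : G →ₗ[k] End k K} {i : ℕ}
    (hK : Good β Γ φ ρ act' i) (κ : G →ₗ[k] M →ₗ[k] K)
    (hκ : ∀ a ∈ Γ, ∀ c ∈ Γ, κ (a * c) = act' a ∘ₗ κ c + κ a ∘ₗ act c)
    (τ' : K →ₗ[k] V) (hτ' : ∀ a ∈ Γ, τ' ∘ₗ act' a = φ i a ∘ₗ τ') :
    Cob β Γ (φ 0) act i fun u x => rp ρ 0 u ∘ₗ τ' ∘ₗ κ x := by
  rcases hK with hK | ⟨j, rfl, hK⟩
  · refine ⟨0, fun a x w u _ _ _ => ?_⟩
    rw [Subsingleton.elim τ' 0]; simp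
  · obtain ⟨ψ, hψ⟩ := hK τ' hτ'
    let F : G →ₗ[k] WW k Bs →ₗ[k] M →ₗ[k] V :=
      ((LinearMap.llcomp k M K V).flip ∘ₗ κ).compl₂ ψ
    have hF : ∀ c W, TX β F (snoc β c W) = ψ W ∘ₗ κ c := fun c W => by rw [TX_snoc]; rfl
    refine ⟨TX β F, fun a x w u hu hΓ hw => ?_⟩
    cases u with
    | nil =>
      have := congrArg List.length hu
      simp only [List.length_cons, List.nil_append, List.length_nil] at this
      omega
    | cons a' w' =>
      rw [List.cons_append, List.cons.injEq] at hu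
      obtain ⟨rfl, rfl⟩ := hu
      obtain ⟨u', b, hb⟩ : ∃ u' b, a :: w' = u' ++ [b] :=
        ⟨_, _, (List.dropLast_append_getLast (List.cons_ne_nil a w')).symm⟩
      have hΓ' : ∀ z ∈ a :: w', z ∈ Γ := fun z hz => hΓ z (by
        rw [← List.cons_append]; exact List.mem_append_left _ hz)
      have hbΓ : b ∈ Γ := hΓ' b (by rw [hb]; simp)
      have hx : x ∈ Γ := hΓ x (by simp)
      have h1 := hψ a b w' u' hb hΓ' (by simpa using hw)
      have h2 : bp β (ww β (a :: (w' ++ [x]))) =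
          snoc β x (bp β (ww β (a :: w'))) + snoc β (b * x) (om (ww β u')) := by
        rw [← List.cons_append, ww_concat, hb, ww_concat, bp_snoc_snoc]
      have h3 : om (ww β (a :: w')) = - snoc β b (om (ww β u')) := by
        rw [hb, ww_concat, om_snoc]
      simp only [← hb] at h1
      simp only []
      rw [h2, h3, ww_concat, map_add, map_neg, hF, hF, hF, hF, hκ b hbΓ x hx,
        ← LinearMap.comp_assoc, h1]
      ext m
      simp only [LinearMap.comp_apply, LinearMap.sub_apply, LinearMap.add_apply, map_add,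
        LinearMap.neg_apply]
      abel

theorem step (h : Der Γ φ ρ) {act : G →ₗ[k] End k M} {act' : G →ₗ[k] End k K} {i : ℕ}
    (hK : Good β Γ φ ρ act' i) (κ : G →ₗ[k] M →ₗ[k] K)
    (hκ : ∀ a ∈ Γ, ∀ c ∈ Γ, κ (a * c) = act' a ∘ₗ κ c + κ a ∘ₗ act c)
    (τ' : K →ₗ[k] V) (hτ' : ∀ a ∈ Γ, τ' ∘ₗ act' a = φ i a ∘ₗ τ') (τ θ : M →ₗ[k] V)
    (hθ : ∀ a ∈ Γ, ρ i a ∘ₗ τ = τ' ∘ₗ κ a - φ i a ∘ₗ θ + θ ∘ₗ act a) :
    Cob β Γ (φ 0) act i fun u x => rp ρ 0 (u ++ [x]) ∘ₗ τ := by
  obtain ⟨ψ, hψ⟩ := shift β hK κ hκ τ' hτ'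
  let η : WW k Bs →ₗ[k] M →ₗ[k] V := (LinearMap.llcomp k M V V).flip θ ∘ₗ RW β ρ 0
  have hη : ∀ W, η W = RW β ρ 0 W ∘ₗ θ := fun W => rfl
  refine ⟨ψ - (-1 : k) ^ i • η, fun a x w u hu hΓ hw => ?_⟩
  have hx : x ∈ Γ := hΓ x (by rw [hu]; simp)
  have hl : u.length = i := by
    have := congrArg List.length hu
    simp at this; omega
  have h1 := hψ a x w u hu hΓ hw
  have h2 := tele β h w 0 a x u hu hΓ
  have h3 := hθ x hx
  have hs : (-1 : k) ^ i * (-1 : k) ^ i = 1 := by rw [← mul_pow]; simp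
  rw [hw, Nat.zero_add] at h2
  ext m
  have h1' := LinearMap.congr_fun h1 m
  have h2' := congrArg (fun f : End k V => (-1 : k) ^ i • f (θ m)) h2
  have h3' := congrArg (fun f : M →ₗ[k] V => rp ρ 0 u (f m)) h3
  simp only [LinearMap.comp_apply, LinearMap.sub_apply, LinearMap.add_apply, map_add, map_sub,
    End.mul_apply, LinearMap.smul_apply, smul_smul, hs, one_smul, smul_sub] at h1' h2' h3'
  simp only [rp_concat, hl, Nat.zero_add, LinearMap.comp_apply, LinearMap.sub_apply,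
    End.mul_apply, LinearMap.smul_apply, hη, RW_ww, om_ww, map_smul, map_sub, smul_sub, smul_smul,
    hs, one_smul]
  simp only [om_ww, hl, map_smul, LinearMap.smul_apply] at h1'
  rw [h3', h1', ← h2']
  abel

end Pool.Agent.MP_92f1cb_al.H34G
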